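import Pool.Agent.Lib.Pe46137h9.Claw
import Pool.Agent.Lib.Pe46137i.Sub
import Pool.Agent.Lib.Pe46137h7.Cut

/-!
# Acyclic digraphs avoiding an induced digraph: the hard cases

If some component of `H` is not an oriented path with at most one change of direction then
reachability on all digraphs reduces to reachability on the acyclic digraphs without an induced
copy of `H`.
-/

namespace Pool.Agent.Lib.Pe46137h9

open Pool.Agent.Lib.Pe46137h7 Pool.Agent.Lib.Pe46137i

/-- The integers as a path with one change of direction: arcs lead away from `0`. -/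
def ZigArc (i j : ℤ) : Prop := (0 ≤ i ∧ j = i + 1) ∨ (i ≤ 0 ∧ j = i - 1)

/-- The disjoint union of infinitely many paths, infinite in both directions, whose arcs lead
away from one vertex, and of infinitely many reversals of such paths. -/
def Zig (x y : Bool × ℕ × ℤ) : Prop :=
  x.1 = y.1 ∧ x.2.1 = y.2.1 ∧
    ((x.1 = true ∧ ZigArc x.2.2 y.2.2) ∨ (x.1 = false ∧ ZigArc y.2.2 x.2.2))

/-! ### Subdivision -/

/-- The phase of a line: incoming lists, outgoing lists, arcs. -/
def phase (τ : Fin 3) : ℕ := if τ = 2 then 0 else if τ = 0 then 1 else 2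

/-- The rank of a vertex of the subdivided digraph. -/
def srank {V : Type} {L : ℕ} (p : (Fin 3 × Fin L) × V × V) : V ×ₗ (ℕ ×ₗ (V ×ₗ ℕ)) :=
  if p.1.1 = 2 then toLex (p.2.2, toLex (0, toLex (p.2.1, p.1.2.val)))
  else if p.1.1 = 0 then toLex (p.2.1, toLex (1, toLex (p.2.2, p.1.2.val)))
  else toLex (p.2.1, toLex (2, toLex (p.2.2, p.1.2.val)))

theorem srank_lt {V : Type} [LinearOrder V] {E : V → V → Prop} (hE : ∀ x y, E x y → x < y)
    {L : ℕ} {p q : (Fin 3 × Fin L) × V × V} (h : Mono.SArc L E p q) : srank p < srank q := by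
  obtain ⟨⟨τ, k⟩, u, w⟩ := p
  obtain ⟨⟨τ', k'⟩, u', w'⟩ := q
  unfold Mono.SArc at h
  simp only at h
  rcases h with ⟨⟨rfl, h2⟩, rfl, rfl⟩ | ⟨⟨⟨rfl, _⟩, rfl, _⟩, rfl, rfl⟩ |
    ⟨⟨⟨rfl, _⟩, rfl, _⟩, rfl, h⟩ | ⟨⟨⟨rfl, _⟩, rfl, _⟩, ⟨rfl, rfl⟩, h⟩ |
    ⟨⟨⟨rfl, _⟩, rfl, _⟩, rfl, h⟩ | ⟨⟨⟨rfl, _⟩, rfl, _⟩, rfl, _⟩
  · fin_cases τ <;> simp [srank, Prod.Lex.lt_iff] <;> omega
  · simp [srank, Prod.Lex.lt_iff]
  · simp [srank, Prod.Lex.lt_iff, h.lt]
  · simp [srank, Prod.Lex.lt_iff, hE _ _ h]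
  · simp [srank, Prod.Lex.lt_iff, h.lt]
  · simp [srank, Prod.Lex.lt_iff]

theorem subdiv_acyclic {V : Type} [LinearOrder V] {E : V → V → Prop}
    (hE : ∀ x y, E x y → x < y) (l : ℕ) : Acyclic ((Mono.subdiv l).out E) := by
  refine acyclic_of_rank (R := V ×ₗ (ℕ ×ₗ (V ×ₗ ℕ)))
    (fun p : Fin (3 * (l + 2)) × V × V => srank (Mono.place l p.1, p.2)) ?_
  intro p q h
  exact srank_lt hE ((Mono.out_iff p q).1 h)

theorem hasInd_irr {h : ℕ} {H : Fin h → Fin h → Prop} {V : Type} {E : V → V → Prop}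
    (hH : HasInd H E) : HasSub (Irr H) E := by
  obtain ⟨f, hf, hf2⟩ := hH
  exact ⟨f, hf, fun i j hij => (hf2 i j hij.2).1 hij.1⟩

theorem subdiv_upInto {h : ℕ} {H : Fin h → Fin h → Prop} (hH : ¬ HasSub (Irr H) Forest) :
    UpInto (Mono.subdiv h) fun _ F => Acyclic F ∧ ¬ HasInd H F := by
  intro V _ _ E hE
  obtain ⟨_, h2, h3, h4, h5⟩ := Mono.subdiv_reduces (m := 1) (h := fun _ => h)
    (H := fun _ => Irr H) (l := h) (fun _ => le_rfl) (fun _ => hH) V E
  exact ⟨⟨subdiv_acyclic hE h, fun h6 => h2 0 (hasInd_irr h6)⟩, h3, h4, h5⟩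

/-! ### Forests of spiders without vertices of degree three -/

/-- The first vertex of an arm of a spider. -/
def arm : Fin 3 → Spider
  | 0 => .tail 1
  | 1 => .left 0
  | 2 => .right 0

/-- The arms of the spider at `(b, k)` which are cut off go to a second line. -/
def cut (N : ℤ) : Fin 3 → Spider → ℕ × ℤ
  | 0, .tail 0 => (0, 0)
  | 0, .tail (j + 1) => (1, N - j)
  | 0, .left j => (0, j + 1)
  | 0, .right j => (0, -(j + 1))
  | 1, .tail j => (0, N - j)
  | 1, .left j => (1, j)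
  | 1, .right j => (0, N + 1 + j)
  | 2, .tail j => (0, N - j)
  | 2, .left j => (0, N + 1 + j)
  | 2, .right j => (1, j)

theorem cut_inj {N : ℤ} (hN : 0 ≤ N) (c : Fin 3) {s s' : Spider} (h : cut N c s = cut N c s') :
    s = s' := by
  fin_cases c <;> rcases s with (_ | j) | j | j <;> rcases s' with (_ | j') | j' | j' <;>
    simp [cut] at h ⊢ <;> omega

/-- The index of a vertex of a spider. -/
def index : Spider → ℕ
  | .tail j => j
  | .left j => j
  | .right j => j

theorem cut_arc {N : ℤ} (hN : 0 ≤ N) (c : Fin 3) {s s' : Spider} (h : Spider.Arc s s')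
    (hs : (index s : ℤ) ≤ N) (h1 : ¬ (s = .tail 0 ∧ s' = arm c)) (h2 : ¬ (s' = .tail 0 ∧ s = arm c)) :
    (cut N c s).1 = (cut N c s').1 ∧ ZigArc (cut N c s).2 (cut N c s').2 := by
  cases h with
  | tail k =>
    fin_cases c
    · rcases k with _ | k
      · exact absurd ⟨rfl, rfl⟩ h2
      · simp only [index] at hs
        simp [cut, ZigArc]
        push_cast at hs
        omega
    · rcases k with _ | k <;> simp [cut, ZigArc, index] at hs ⊢ <;> omega
    · rcases k with _ | k <;> simp [cut, ZigArc, index] at hs ⊢ <;> omega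
  | toLeft =>
    fin_cases c
    · simp [cut, ZigArc]
    · exact absurd ⟨rfl, rfl⟩ h1
    · simp [cut, ZigArc]; omega
  | toRight =>
    fin_cases c
    · simp [cut, ZigArc]
    · simp [cut, ZigArc]; omega
    · exact absurd ⟨rfl, rfl⟩ h1
  | left k =>
    fin_cases c
    · simp [cut, ZigArc]; omega
    · simp [cut, ZigArc]
    · simp [cut, ZigArc]; omega
  | right k =>
    fin_cases c
    · simp [cut, ZigArc]; omega
    · simp [cut, ZigArc]; omega
    · simp [cut, ZigArc]

theorem zig_of_forest {h : ℕ} {H : Fin h → Fin h → Prop} (hH : HasSub (Irr H) Forest)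
    (hc : ¬ HasClaw H) : HasSub (Irr H) Zig := by
  classical
  obtain ⟨f, hf, hf2⟩ := hH
  -- the bound for the indices
  obtain ⟨N, hN⟩ : ∃ N : ℕ, ∀ i, index (f i).2.2 ≤ N :=
    ⟨Finset.univ.sup fun i => index (f i).2.2, fun i =>
      Finset.le_sup (f := fun i => index (f i).2.2) (Finset.mem_univ i)⟩
  -- at every spider one of the three arcs at the centre is missing
  have hmiss : ∀ (b : Bool) (k : ℕ), ∃ c : Fin 3, ∀ i j, f i = (b, k, .tail 0) →
      f j = (b, k, arm c) → ¬ Adj (Irr H) i j := by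
    intro b k
    by_contra hcon
    push Not at hcon
    obtain ⟨i0, j0, e0, f0, a0⟩ := hcon 0
    obtain ⟨i1, j1, e1, f1, a1⟩ := hcon 1
    obtain ⟨i2, j2, e2, f2, a2⟩ := hcon 2
    have h01 : i1 = i0 := hf (e1.trans e0.symm)
    have h02 : i2 = i0 := hf (e2.trans e0.symm)
    subst h01 h02
    have adj : ∀ i j, Adj (Irr H) i j → Adj H i j := fun i j h =>
      h.imp (fun h => h.1) fun h => h.1
    have hne : ∀ i j, Adj (Irr H) i j → i ≠ j := fun i j h => by
      rcases h with h | h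
      · exact h.2
      · exact h.2.symm
    have nadj : ∀ (c c' : Fin 3) (i j : Fin h), c ≠ c' → f i = (b, k, arm c) →
        f j = (b, k, arm c') → i ≠ j ∧ ¬ Adj H i j := by
      intro c c' i j hcc ei ej
      have hij : i ≠ j := by
        rintro rfl
        have : arm c = arm c' := by
          have := ei.symm.trans ej
          simpa using this
        revert this
        fin_cases c <;> fin_cases c' <;> simp [arm] at hcc ⊢
      refine ⟨hij, fun hadj => ?_⟩
      have key : ∀ i j : Fin h, H i j → i ≠ j → ∀ c c' : Fin 3, c ≠ c' → f i = (b, k, arm c) →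
          f j = (b, k, arm c') → False := by
        intro i j h1 h2 c c' hcc ei ej
        have h3 := hf2 i j ⟨h1, h2⟩
        rw [ei, ej] at h3
        obtain ⟨_, _, h3 | h3⟩ := h3
        · obtain ⟨_, h3⟩ := h3
          revert h3
          fin_cases c <;> fin_cases c' <;> simp [arm] at hcc ⊢ <;> intro h3 <;> cases h3
        · obtain ⟨_, h3⟩ := h3
          revert h3
          fin_cases c <;> fin_cases c' <;> simp [arm] at hcc ⊢ <;> intro h3 <;> cases h3
      rcases hadj with h1 | h1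
      · exact key i j h1 hij c c' hcc ei ej
      · exact key j i h1 hij.symm c' c hcc.symm ej ei
    obtain ⟨n01, m01⟩ := nadj 0 1 j0 j1 (by decide) f0 f1
    obtain ⟨n02, m02⟩ := nadj 0 2 j0 j2 (by decide) f0 f2
    obtain ⟨n12, m12⟩ := nadj 1 2 j1 j2 (by decide) f1 f2
    exact hc ⟨i2, j0, j1, j2, hne _ _ a0, hne _ _ a1, hne _ _ a2, n01, n02, n12, adj _ _ a0,
      adj _ _ a1, adj _ _ a2, m01, m02, m12⟩
  choose c hc' using hmiss
  refine ⟨fun i => ((f i).1, 2 * (f i).2.1 + (cut N (c (f i).1 (f i).2.1) (f i).2.2).1,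
    (cut N (c (f i).1 (f i).2.1) (f i).2.2).2), ?_, ?_⟩
  · have hlt : ∀ (c : Fin 3) (s : Spider), (cut N c s).1 < 2 := by
      intro c s
      fin_cases c <;> rcases s with (_ | j) | j | j <;> simp [cut]
    intro i j hij
    simp only [Prod.mk.injEq] at hij
    obtain ⟨h1, h2, h3⟩ := hij
    have h4 := hlt (c (f i).1 (f i).2.1) (f i).2.2
    have h5 := hlt (c (f j).1 (f j).2.1) (f j).2.2
    have h6 : (f i).2.1 = (f j).2.1 := by omega
    have h7 : c (f i).1 (f i).2.1 = c (f j).1 (f j).2.1 := by rw [h1, h6]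
    have h8 : cut N (c (f j).1 (f j).2.1) (f i).2.2 = cut N (c (f j).1 (f j).2.1) (f j).2.2 := by
      rw [h7] at h2 h3
      exact Prod.ext (by omega) h3
    have h9 := cut_inj (Int.natCast_nonneg N) _ h8
    exact hf (Prod.ext h1 (Prod.ext h6 h9))
  · intro i j hij
    have h1 := hf2 i j hij
    obtain ⟨h2, h3, h4⟩ := h1
    have h7 : c (f i).1 (f i).2.1 = c (f j).1 (f j).2.1 := by rw [h2, h3]
    have hadj : Adj (Irr H) i j := Or.inl hij
    have hadj' : Adj (Irr H) j i := Or.inr hij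
    have m1 : ¬ ((f i).2.2 = .tail 0 ∧ (f j).2.2 = arm (c (f j).1 (f j).2.1)) := by
      rintro ⟨e1, e2⟩
      refine hc' (f j).1 (f j).2.1 i j ?_ ?_ hadj
      · exact Prod.ext h2 (Prod.ext h3 e1)
      · exact Prod.ext rfl (Prod.ext rfl e2)
    have m2 : ¬ ((f j).2.2 = .tail 0 ∧ (f i).2.2 = arm (c (f j).1 (f j).2.1)) := by
      rintro ⟨e1, e2⟩
      refine hc' (f j).1 (f j).2.1 j i ?_ ?_ hadj'
      · exact Prod.ext rfl (Prod.ext rfl e1)
      · exact Prod.ext h2 (Prod.ext h3 e2)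
    have hN' : ∀ i, (index (f i).2.2 : ℤ) ≤ N := fun i => by exact_mod_cast hN i
    refine ⟨h2, ?_, ?_⟩
    · simp only
      rw [h7]
      rcases h4 with ⟨_, h4⟩ | ⟨_, h4⟩
      · have := (cut_arc (Int.natCast_nonneg N) (c (f j).1 (f j).2.1) h4 (hN' i) m1 m2).1
        omega
      · have := (cut_arc (Int.natCast_nonneg N) (c (f j).1 (f j).2.1) h4 (hN' j) m2 m1).1
        omega
    · simp only
      rw [h7]
      rcases h4 with ⟨h4', h4⟩ | ⟨h4', h4⟩
      · exact Or.inl ⟨h4', (cut_arc (Int.natCast_nonneg N) _ h4 (hN' i) m1 m2).2⟩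
      · exact Or.inr ⟨h4', (cut_arc (Int.natCast_nonneg N) _ h4 (hN' j) m2 m1).2⟩

/-! ### Hardness -/

theorem hasInd_congr {h : ℕ} {H : Fin h → Fin h → Prop} {W W' : Type} {F : W → W → Prop}
    {F' : W' → W' → Prop} (e : W ≃ W') (he : ∀ x y, F x y ↔ F' (e x) (e y))
    (hF : HasInd H F) : HasInd H F' := by
  obtain ⟨f, hf, hf2⟩ := hF
  exact ⟨e ∘ f, e.injective.comp hf, fun i j hij => (hf2 i j hij).trans (he _ _)⟩

theorem acyclic_congr {W W' : Type} {F : W → W → Prop}
    {F' : W' → W' → Prop} (e : W ≃ W') (he : ∀ x y, F x y ↔ F' (e x) (e y))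
    (hF : Acyclic F') : Acyclic F := by
  intro x hx
  exact hF (e x) (hx.lift e fun a b hab => (he a b).1 hab)

/-- **Hardness**: if `H`, without its loops, is not a disjoint union of paths with at most one
change of direction then reachability on all finite digraphs reduces to reachability on finite
acyclic digraphs without an induced copy of `H`. -/
theorem acyclic_hard {h : ℕ} {H : Fin h → Fin h → Prop} (hH : ¬ HasSub (Irr H) Zig) :
    ∃ r : DReduction, r.Into fun _ F => Acyclic F ∧ ¬ HasInd H F := by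
  have hC : ∀ (W W' : Type) (F : W → W → Prop) (F' : W' → W' → Prop) (e : W ≃ W'),
      (∀ x y, F x y ↔ F' (e x) (e y)) → (Acyclic F' ∧ ¬ HasInd H F') →
        (Acyclic F ∧ ¬ HasInd H F) := fun W W' F F' e he h =>
    ⟨acyclic_congr e he h.1, fun h' => h.2 (hasInd_congr e he h')⟩
  by_cases h1 : HasSub (Irr H) Forest
  · by_cases h2 : HasClaw H
    · exact ⟨unrolled claw, unrolled_into hC (claw_upInto h2)⟩
    · exact absurd (zig_of_forest h1 h2) hH
  · exact ⟨unrolled (Mono.subdiv h), unrolled_into hC (subdiv_upInto h1)⟩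

end Pool.Agent.Lib.Pe46137h9
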