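import Pool.Agent.Lib.Pe46137i.Defs
import Pool.Agent.Lib.Pe46137i.Red

/-!
# First-order reductions of arbitrary dimension; unrolling in time
-/

namespace Pool.Agent.Lib.Pe46137h9

open Pool.Agent.Lib.Pe46137h7 Pool.Agent.Lib.Pe46137i

/-! ### Definitions -/

/-- A first-order reduction: a first-order interpretation of arbitrary dimension with finitely
many copies, together with first-order definitions of the new source and the new target. -/
structure DReduction where
  /-- the dimension -/
  dim : ℕ
  /-- the number of copies -/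
  copies : ℕ
  /-- arcs from one copy to another; the first `dim` variables are the first vertex, the last
  `dim` variables are the second one -/
  arc : Fin copies → Fin copies → Fml OrdVoc (dim + dim)
  /-- the new source, in the variables after the first one, from the old source `0` -/
  src : Fml OrdVoc (1 + dim)
  /-- the new target, in the variables after the first one, from the old target `0` -/
  tgt : Fml OrdVoc (1 + dim)
  /-- the copy holding the new source -/
  srcCopy : Fin copies
  /-- the copy holding the new target -/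
  tgtCopy : Fin copies
  arc_fo : ∀ i j, (arc i j).FirstOrder
  src_fo : src.FirstOrder
  tgt_fo : tgt.FirstOrder

/-- The digraph produced from an ordered digraph: its vertices are the tuples of `dim` old
vertices, in finitely many copies. -/
def DReduction.out (r : DReduction) {V : Type} [LinearOrder V] (E : V → V → Prop)
    (p q : Fin r.copies × (Fin r.dim → V)) : Prop :=
  Sat (ordStr E) (r.arc p.1 q.1) (Fin.append p.2 q.2)

/-- The tuple `x` is the new source for the source `s`. -/
def DReduction.IsSrc (r : DReduction) {V : Type} [LinearOrder V] (E : V → V → Prop)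
    (s : V) (x : Fin r.dim → V) : Prop := Sat (ordStr E) r.src (Fin.append ![s] x)

/-- The tuple `y` is the new target for the target `t`. -/
def DReduction.IsTgt (r : DReduction) {V : Type} [LinearOrder V] (E : V → V → Prop)
    (t : V) (y : Fin r.dim → V) : Prop := Sat (ordStr E) r.tgt (Fin.append ![t] y)

/-- `r` reduces reachability on all finite digraphs, given with a linear order of the vertices,
to reachability on finite digraphs satisfying `C`. -/
def DReduction.Into (r : DReduction) (C : ∀ W : Type, (W → W → Prop) → Prop) : Prop :=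
  ∀ (V : Type) [Finite V] [LinearOrder V] (E : V → V → Prop),
    C _ (r.out E) ∧ (∀ s, ∃! x, r.IsSrc E s x) ∧ (∀ t, ∃! y, r.IsTgt E t y) ∧
    ∀ s t x y, r.IsSrc E s x → r.IsTgt E t y →
      (Relation.ReflTransGen (r.out E) (r.srcCopy, x) (r.tgtCopy, y) ↔
        Relation.ReflTransGen E s t)

/-- The same for reductions of dimension two applied to digraphs with a linear order of the
vertices in which every arc goes upwards. -/
def UpInto (r : Reduction) (C : ∀ W : Type, (W → W → Prop) → Prop) : Prop :=
  ∀ (V : Type) [Finite V] [LinearOrder V] (E : V → V → Prop), (∀ x y, E x y → x < y) →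
    C _ (r.out E) ∧ (∀ s, ∃! x, r.IsSrc E s x) ∧ (∀ t, ∃! y, r.IsTgt E t y) ∧
    ∀ s t x y, r.IsSrc E s x → r.IsTgt E t y →
      (Relation.ReflTransGen (r.out E) (r.srcCopy, x) (r.tgtCopy, y) ↔
        Relation.ReflTransGen E s t)

/-! ### Unrolling in time -/

section Unroll

variable {V : Type} [LinearOrder V] {E : V → V → Prop}

/-- The digraph unrolled in time: the first component of a vertex is a moment. -/
def Unroll (E : V → V → Prop) (x y : V ×ₗ V) : Prop :=
  (ofLex x).1 ⋖ (ofLex y).1 ∧ ((ofLex x).2 = (ofLex y).2 ∨ E (ofLex x).2 (ofLex y).2)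

theorem Unroll.lt {x y : V ×ₗ V} (h : Unroll E x y) : x < y :=
  (Prod.Lex.lt_iff (x := x) (y := y)).2 (Or.inl h.1.lt)

theorem unroll_iff (i j u w : V) :
    Unroll E (toLex (i, u)) (toLex (j, w)) ↔ layer.out E (0, u, i) (0, w, j) := by
  rw [layer_out_iff]
  simp only [Unroll, ofLex_toLex, CovBy]
  constructor
  · rintro ⟨⟨h1, h2⟩, h3⟩
    refine ⟨h3.symm, h1, ?_⟩
    rintro ⟨k, h4, h5⟩
    exact h2 h4 h5
  · rintro ⟨h1, h2, h3⟩
    exact ⟨⟨h2, fun c h4 h5 => h3 ⟨c, h4, h5⟩⟩, h1.symm⟩

theorem unroll_reach [Finite V] {i j : V} (hi : ∀ k, i ≤ k) (hj : ∀ k, k ≤ j) (s t : V) :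
    Relation.ReflTransGen (Unroll E) (toLex (i, s)) (toLex (j, t)) ↔
      Relation.ReflTransGen E s t := by
  constructor
  · intro h
    have key : ∀ x y : V ×ₗ V, Relation.ReflTransGen (Unroll E) x y →
        Relation.ReflTransGen E (ofLex x).2 (ofLex y).2 := by
      intro x y h
      induction h with
      | refl => exact .refl
      | tail _ h1 ih =>
        rcases h1.2 with h2 | h2
        · rwa [← h2]
        · exact ih.tail h2
    exact key _ _ h
  · intro h
    have h1 := layer_reach s t i j hi hj h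
    have key : ∀ p q : Fin 1 × V × V, Relation.ReflTransGen (layer.out E) p q →
        Relation.ReflTransGen (Unroll E) (toLex (p.2.2, p.2.1)) (toLex (q.2.2, q.2.1)) := by
      intro p q h
      induction h with
      | refl => exact .refl
      | @tail b c _ h1 ih =>
        refine ih.tail ((unroll_iff _ _ _ _).2 ?_)
        obtain ⟨b0, b1, b2⟩ := b
        obtain ⟨c0, c1, c2⟩ := c
        rw [Subsingleton.elim b0 0, Subsingleton.elim c0 0] at h1
        exact h1
    exact key _ _ h1

end Unroll

/-! ### Translation of formulas -/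

/-- The moment `c` covers the moment `a`. -/
def covFm {m : ℕ} (a c : Fin m) : Fml OrdVoc m :=
  .and (.rel .lt a c)
    (.neg (.ex (.and (.rel .lt a.castSucc (Fin.last m)) (.rel .lt (Fin.last m) c.castSucc))))

theorem sat_covFm {V : Type} [LinearOrder V] {E : V → V → Prop} {m : ℕ} (i j : Fin m)
    (a : Fin m → V) : Sat (ordStr E) (covFm i j) a ↔ a i ⋖ a j := by
  simp only [covFm, Sat, ordStr, ext_castSucc, ext_last, CovBy]
  refine and_congr Iff.rfl ?_
  push Not
  rfl

/-- Lifting of the variables for the first components. -/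
def liftA {n m : ℕ} (f : Fin n → Fin m) : Fin (n + 1) → Fin (m + 2) :=
  Fin.snoc (α := fun _ => Fin (m + 2)) (fun i => (f i).castSucc.castSucc) (Fin.last m).castSucc

/-- Lifting of the variables for the second components. -/
def liftB {n m : ℕ} (f : Fin n → Fin m) : Fin (n + 1) → Fin (m + 2) :=
  Fin.snoc (α := fun _ => Fin (m + 2)) (fun i => (f i).castSucc.castSucc) (Fin.last (m + 1))

/-- Translation of first-order formulas over the unrolled digraph, whose variables are the pairs
of the variables given by `f` and `g`. -/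
def tr : {n : ℕ} → Fml OrdVoc n → {m : ℕ} → (Fin n → Fin m) → (Fin n → Fin m) → Fml OrdVoc m
  | _, .rel .arc i j, _, f, g =>
    .and (covFm (f i) (f j)) (.or (.eq (g i) (g j)) (.rel .arc (g i) (g j)))
  | _, .rel .lt i j, _, f, g =>
    .or (.rel .lt (f i) (f j)) (.and (.eq (f i) (f j)) (.rel .lt (g i) (g j)))
  | _, .eq i j, _, f, g => .and (.eq (f i) (f j)) (.eq (g i) (g j))
  | _, .neg φ, _, f, g => .neg (tr φ f g)
  | _, .and φ ψ, _, f, g => .and (tr φ f g) (tr ψ f g)
  | _, .ex φ, _, f, g => .ex (.ex (tr φ (liftA f) (liftB g)))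
  | _, .stc _ i j, _, f, _ => .eq (f i) (f j)

theorem tr_fo {n : ℕ} (φ : Fml OrdVoc n) : φ.FirstOrder →
    ∀ {m : ℕ} (f g : Fin n → Fin m), (tr φ f g).FirstOrder := by
  induction φ with
  | rel r i j =>
    intro _ m f g
    cases r
    · simp [tr, covFm, Fml.FirstOrder, Fml.or]
    · simp [tr, Fml.FirstOrder, Fml.or]
  | eq i j => intro _ m f g; exact ⟨trivial, trivial⟩
  | neg φ ih => intro h m f g; exact ih h f g
  | and φ ψ ih1 ih2 => intro h m f g; exact ⟨ih1 h.1 f g, ih2 h.2 f g⟩
  | ex φ ih => intro h m f g; exact ih h (liftA f) (liftB g)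
  | stc φ i j ih => intro h; exact absurd h id

theorem ext_ext_lift {V : Type} {n m : ℕ} (f g : Fin n → Fin m) (a : Fin m → V) (v w : V) :
    (fun i => toLex (ext (ext a v) w (liftA f i), ext (ext a v) w (liftB g i))) =
      ext (fun i => toLex (a (f i), a (g i))) (toLex (v, w)) := by
  funext i
  refine Fin.lastCases ?_ (fun i => ?_) i
  · simp only [liftA, liftB, Fin.snoc_last, ext_castSucc, ext_last]
  · simp only [liftA, liftB, Fin.snoc_castSucc, ext_castSucc]

theorem sat_tr {V : Type} [LinearOrder V] (E : V → V → Prop) {n : ℕ} (φ : Fml OrdVoc n) :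
    φ.FirstOrder → ∀ {m : ℕ} (f g : Fin n → Fin m) (a : Fin m → V),
      (Sat (ordStr E) (tr φ f g) a ↔
        Sat (ordStr (Unroll E)) φ (fun i => toLex (a (f i), a (g i)))) := by
  induction φ with
  | rel r i j =>
    intro _ m f g a
    cases r
    · simp only [tr, Sat, sat_or, sat_covFm]
      exact Iff.rfl
    · simp only [tr, Sat, sat_or]
      exact (Prod.Lex.lt_iff (x := toLex (a (f i), a (g i)))
        (y := toLex (a (f j), a (g j)))).symm
  | eq i j =>
    intro _ m f g a
    simp only [tr, Sat]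
    rw [toLex_inj, Prod.mk.injEq]
  | neg φ ih => intro h m f g a; exact not_congr (ih h f g a)
  | and φ ψ ih1 ih2 => intro h m f g a; exact and_congr (ih1 h.1 f g a) (ih2 h.2 f g a)
  | ex φ ih =>
    intro h m f g a
    simp only [tr, Sat]
    constructor
    · rintro ⟨v, w, h1⟩
      refine ⟨toLex (v, w), ?_⟩
      rw [ih h, ext_ext_lift] at h1
      exact h1
    · rintro ⟨z, h1⟩
      refine ⟨(ofLex z).1, (ofLex z).2, ?_⟩
      rw [ih h, ext_ext_lift]
      exact h1
  | stc φ i j ih => intro h; exact absurd h id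

/-! ### Composition with the unrolling -/

/-- The variable `i` is the first moment. -/
def minFm {m : ℕ} (i : Fin m) : Fml OrdVoc m := .neg (.ex (.rel .lt (Fin.last m) i.castSucc))

/-- The variable `i` is the last moment. -/
def maxFm {m : ℕ} (i : Fin m) : Fml OrdVoc m := .neg (.ex (.rel .lt i.castSucc (Fin.last m)))

theorem sat_minFm {V : Type} [LinearOrder V] {E : V → V → Prop} {m : ℕ} (i : Fin m)
    (a : Fin m → V) : Sat (ordStr E) (minFm i) a ↔ ∀ z, a i ≤ z := by
  simp only [minFm, Sat, ordStr, ext_castSucc, ext_last]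
  push Not
  rfl

theorem sat_maxFm {V : Type} [LinearOrder V] {E : V → V → Prop} {m : ℕ} (i : Fin m)
    (a : Fin m → V) : Sat (ordStr E) (maxFm i) a ↔ ∀ z, z ≤ a i := by
  simp only [maxFm, Sat, ordStr, ext_castSucc, ext_last]
  push Not
  rfl

/-- The unrolling followed by the reduction `r`. -/
abbrev unrolled (r : Reduction) : DReduction where
  dim := 4
  copies := r.copies
  arc := fun i j => tr (r.arc i j) ![0, 2, 4, 6] ![1, 3, 5, 7]
  src := .ex (.and (minFm 5) (tr r.src ![5, 1, 3] ![0, 2, 4]))
  tgt := .ex (.and (maxFm 5) (tr r.tgt ![5, 1, 3] ![0, 2, 4]))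
  srcCopy := r.srcCopy
  tgtCopy := r.tgtCopy
  arc_fo := fun i j => tr_fo _ (r.arc_fo i j) _ _
  src_fo := ⟨trivial, tr_fo _ r.src_fo _ _⟩
  tgt_fo := ⟨trivial, tr_fo _ r.tgt_fo _ _⟩

/-- Quadruples as pairs of pairs. -/
def quad (V : Type) : (Fin 4 → V) ≃ (V ×ₗ V) × (V ×ₗ V) where
  toFun x := (toLex (x 0, x 1), toLex (x 2, x 3))
  invFun y := ![(ofLex y.1).1, (ofLex y.1).2, (ofLex y.2).1, (ofLex y.2).2]
  left_inv x := by
    funext i
    fin_cases i <;> rfl
  right_inv y := rfl

section Compose

variable {V : Type} [LinearOrder V] {E : V → V → Prop} {r : Reduction}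

theorem unrolled_out (p q : Fin r.copies × (Fin 4 → V)) :
    (unrolled r).out E p q ↔ r.out (Unroll E) (p.1, quad V p.2) (q.1, quad V q.2) := by
  unfold DReduction.out Reduction.out
  simp only [unrolled]
  rw [sat_tr _ _ (r.arc_fo _ _)]
  have : (fun i => toLex (Fin.append p.2 q.2 ((![0, 2, 4, 6] : Fin 4 → Fin (4 + 4)) i),
      Fin.append p.2 q.2 ((![1, 3, 5, 7] : Fin 4 → Fin (4 + 4)) i))) =
      ![(quad V p.2).1, (quad V p.2).2, (quad V q.2).1, (quad V q.2).2] := by
    funext i
    fin_cases i <;> rfl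
  rw [this]

theorem unrolled_src [Finite V] {m : V} (hm : ∀ z, m ≤ z) (s : V) (x : Fin 4 → V) :
    (unrolled r).IsSrc E s x ↔ r.IsSrc (Unroll E) (toLex (m, s)) (quad V x) := by
  unfold DReduction.IsSrc Reduction.IsSrc
  simp only [unrolled, Sat]
  have key : ∀ v : V, (fun i => toLex (ext (Fin.append ![s] x) v ((![5, 1, 3] : Fin 3 → Fin (1 + 4 + 1)) i),
      ext (Fin.append ![s] x) v ((![0, 2, 4] : Fin 3 → Fin (1 + 4 + 1)) i))) =
      ![toLex (v, s), (quad V x).1, (quad V x).2] := by
    intro v
    funext i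
    fin_cases i <;> rfl
  constructor
  · rintro ⟨v, h1, h2⟩
    rw [sat_minFm] at h1
    rw [sat_tr _ _ r.src_fo, key] at h2
    have h3 : v = m := le_antisymm (h1 m) (hm v)
    rwa [h3] at h2
  · intro h
    refine ⟨m, ?_, ?_⟩
    · rw [sat_minFm]
      exact hm
    · rw [sat_tr _ _ r.src_fo, key]
      exact h

theorem unrolled_tgt [Finite V] {m : V} (hm : ∀ z, z ≤ m) (s : V) (x : Fin 4 → V) :
    (unrolled r).IsTgt E s x ↔ r.IsTgt (Unroll E) (toLex (m, s)) (quad V x) := by
  unfold DReduction.IsTgt Reduction.IsTgt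
  simp only [unrolled, Sat]
  have key : ∀ v : V, (fun i => toLex (ext (Fin.append ![s] x) v ((![5, 1, 3] : Fin 3 → Fin (1 + 4 + 1)) i),
      ext (Fin.append ![s] x) v ((![0, 2, 4] : Fin 3 → Fin (1 + 4 + 1)) i))) =
      ![toLex (v, s), (quad V x).1, (quad V x).2] := by
    intro v
    funext i
    fin_cases i <;> rfl
  constructor
  · rintro ⟨v, h1, h2⟩
    rw [sat_maxFm] at h1
    rw [sat_tr _ _ r.tgt_fo, key] at h2
    have h3 : v = m := le_antisymm (hm v) (h1 m)
    rwa [h3] at h2
  · intro h
    refine ⟨m, ?_, ?_⟩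
    · rw [sat_maxFm]
      exact hm
    · rw [sat_tr _ _ r.tgt_fo, key]
      exact h

/-- Transport of reachability along an isomorphism. -/
theorem reach_equiv {W W' : Type} {F : W → W → Prop} {F' : W' → W' → Prop} (e : W ≃ W')
    (he : ∀ x y, F x y ↔ F' (e x) (e y)) (x y : W) :
    Relation.ReflTransGen F x y ↔ Relation.ReflTransGen F' (e x) (e y) := by
  constructor
  · intro h
    exact h.lift e fun a b hab => (he a b).1 hab
  · intro h
    have h1 : Relation.ReflTransGen F (e.symm (e x)) (e.symm (e y)) :=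
      h.lift e.symm fun a b hab => (he (e.symm a) (e.symm b)).2 (by simpa using hab)
    rwa [Equiv.symm_apply_apply, Equiv.symm_apply_apply] at h1

/-- A reduction which is correct on upward digraphs gives, after the unrolling, a reduction which
is correct on all digraphs. -/
theorem unrolled_into {C : ∀ W : Type, (W → W → Prop) → Prop}
    (hC : ∀ (W W' : Type) (F : W → W → Prop) (F' : W' → W' → Prop) (e : W ≃ W'),
      (∀ x y, F x y ↔ F' (e x) (e y)) → C W' F' → C W F)
    (hr : UpInto r C) : (unrolled r).Into C := by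
  intro V _ _ E
  let e : Fin r.copies × (Fin 4 → V) ≃ Fin r.copies × (V ×ₗ V) × (V ×ₗ V) :=
    Equiv.prodCongr (Equiv.refl _) (quad V)
  have he : ∀ x y, (unrolled r).out E x y ↔ r.out (Unroll E) (e x) (e y) := fun x y =>
    unrolled_out x y
  have : Finite (V ×ₗ V) := inferInstanceAs (Finite (V × V))
  obtain ⟨h1, h2, h3, h4⟩ := hr (V ×ₗ V) (Unroll E) fun x y h => h.lt
  refine ⟨hC _ _ _ _ e he h1, ?_, ?_, ?_⟩
  · intro s
    have : Nonempty V := ⟨s⟩
    obtain ⟨m, hm⟩ := Finite.exists_min (id : V → V)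
    obtain ⟨x, hx1, hx2⟩ := h2 (toLex (m, s))
    refine ⟨(quad V).symm x, ?_, ?_⟩
    · refine (unrolled_src hm s _).2 ?_
      rwa [Equiv.apply_symm_apply]
    · intro y hy
      exact (Equiv.eq_symm_apply (quad V)).2 (hx2 _ ((unrolled_src hm s _).1 hy))
  · intro s
    have : Nonempty V := ⟨s⟩
    obtain ⟨m, hm⟩ := Finite.exists_max (id : V → V)
    obtain ⟨x, hx1, hx2⟩ := h3 (toLex (m, s))
    refine ⟨(quad V).symm x, ?_, ?_⟩
    · refine (unrolled_tgt hm s _).2 ?_
      rwa [Equiv.apply_symm_apply]
    · intro y hy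
      exact (Equiv.eq_symm_apply (quad V)).2 (hx2 _ ((unrolled_tgt hm s _).1 hy))
  · intro s t x y hx hy
    have : Nonempty V := ⟨s⟩
    obtain ⟨m, hm⟩ := Finite.exists_min (id : V → V)
    obtain ⟨M, hM⟩ := Finite.exists_max (id : V → V)
    rw [unrolled_src hm] at hx
    rw [unrolled_tgt hM] at hy
    exact (reach_equiv e he (r.srcCopy, x) (r.tgtCopy, y)).trans
      ((h4 _ _ _ _ hx hy).trans (unroll_reach hm hM s t))

end Compose

end Pool.Agent.Lib.Pe46137h9
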