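import Pool.Agent.Lib.Pe46137h9.DRed

/-!
# A reduction to acyclic digraphs without induced claws

Every vertex `x` of an upward digraph becomes a transitive tournament: its incoming ports, the
vertex itself, its outgoing ports.
-/

namespace Pool.Agent.Lib.Pe46137h9

open Pool.Agent.Lib.Pe46137h7 Pool.Agent.Lib.Pe46137i

/-- No closed walk. -/
def Acyclic {V : Type} (E : V → V → Prop) : Prop := ∀ x, ¬ Relation.TransGen E x x

theorem acyclic_of_rank {V R : Type} [Preorder R] {E : V → V → Prop} (rk : V → R)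
    (h : ∀ x y, E x y → rk x < rk y) : Acyclic E := by
  have key : ∀ x y, Relation.TransGen E x y → rk x < rk y := by
    intro x y hxy
    induction hxy with
    | single h1 => exact h _ _ h1
    | tail _ h1 ih => exact ih.trans (h _ _ h1)
  intro x hx
  exact lt_irrefl _ (key x x hx)

/-- The arc formulas: the copy `0` holds the vertices, the copy `1` the outgoing ports, the copy
`2` the incoming ports. -/
def clawArc : Fin 3 → Fin 3 → Fml OrdVoc 4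
  | 2, 0 => .and (.rel .arc 0 1) (.and (.eq 1 2) (.eq 2 3))
  | 0, 1 => .and (.and (.eq 0 1) (.eq 1 2)) (.rel .arc 2 3)
  | 2, 1 => .and (.rel .arc 0 1) (.and (.eq 1 2) (.rel .arc 2 3))
  | 1, 2 => .and (.and (.eq 0 2) (.eq 1 3)) (.rel .arc 0 1)
  | 1, 1 => .and (.and (.rel .arc 0 1) (.rel .arc 2 3)) (.and (.eq 0 2) (.rel .lt 1 3))
  | 2, 2 => .and (.and (.rel .arc 0 1) (.rel .arc 2 3)) (.and (.eq 1 3) (.rel .lt 0 2))
  | _, _ => .bot

/-- The reduction with transitive tournaments of ports. -/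
abbrev claw : Reduction where
  copies := 3
  arc := clawArc
  src := diag
  tgt := diag
  srcCopy := 0
  tgtCopy := 0
  arc_fo := by
    intro i j
    fin_cases i <;> fin_cases j <;> simp [clawArc, Fml.FirstOrder, Fml.bot]
  src_fo := by simp [Fml.FirstOrder]
  tgt_fo := by simp [Fml.FirstOrder]

section Claw

variable {V : Type} [LinearOrder V] {E : V → V → Prop}

theorem claw_out_iff (p q : Fin 3 × V × V) : claw.out E p q ↔
    (p.1 = 2 ∧ q.1 = 0 ∧ E p.2.1 p.2.2 ∧ p.2.2 = q.2.1 ∧ q.2.1 = q.2.2) ∨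
    (p.1 = 0 ∧ q.1 = 1 ∧ p.2.1 = p.2.2 ∧ p.2.2 = q.2.1 ∧ E q.2.1 q.2.2) ∨
    (p.1 = 2 ∧ q.1 = 1 ∧ E p.2.1 p.2.2 ∧ p.2.2 = q.2.1 ∧ E q.2.1 q.2.2) ∨
    (p.1 = 1 ∧ q.1 = 2 ∧ p.2 = q.2 ∧ E p.2.1 p.2.2) ∨
    (p.1 = 1 ∧ q.1 = 1 ∧ E p.2.1 p.2.2 ∧ E q.2.1 q.2.2 ∧ p.2.1 = q.2.1 ∧ p.2.2 < q.2.2) ∨
    (p.1 = 2 ∧ q.1 = 2 ∧ E p.2.1 p.2.2 ∧ E q.2.1 q.2.2 ∧ p.2.2 = q.2.2 ∧ p.2.1 < q.2.1) := by
  obtain ⟨i, a, b⟩ := p
  obtain ⟨j, c, d⟩ := q
  unfold Reduction.out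
  fin_cases i <;> fin_cases j <;>
    simp [clawArc, Sat, Fml.bot, ordStr, and_assoc]

/-- The new vertices which are used. -/
def Ok (E : V → V → Prop) (p : Fin 3 × V × V) : Prop :=
  (p.1 = 0 ∧ p.2.1 = p.2.2) ∨ (p.1 ≠ 0 ∧ E p.2.1 p.2.2)

/-- The old vertex at which a new vertex sits. -/
def own (p : Fin 3 × V × V) : V := if p.1 = 2 then p.2.2 else p.2.1

/-- The position of a new vertex in the tournament of its old vertex. -/
def pos (p : Fin 3 × V × V) : ℕ ×ₗ V :=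
  if p.1 = 2 then toLex (0, p.2.1) else if p.1 = 0 then toLex (1, p.2.1) else toLex (2, p.2.2)

theorem claw_out_iff' (p q : Fin 3 × V × V) : claw.out E p q ↔
    Ok E p ∧ Ok E q ∧ ((own p = own q ∧ pos p < pos q) ∨ (p.1 = 1 ∧ q.1 = 2 ∧ p.2 = q.2)) := by
  rw [claw_out_iff]
  obtain ⟨i, a, b⟩ := p
  obtain ⟨j, c, d⟩ := q
  fin_cases i <;> fin_cases j <;>
    simp [Ok, own, pos, Prod.Lex.lt_iff] <;> grind

theorem pos_inj {p q : Fin 3 × V × V} (hp : Ok E p) (hq : Ok E q) (h1 : own p = own q)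
    (h2 : pos p = pos q) : p = q := by
  obtain ⟨i, a, b⟩ := p
  obtain ⟨j, c, d⟩ := q
  fin_cases i <;> fin_cases j <;>
    simp [Ok, own, pos] at hp hq h1 h2 ⊢ <;> grind

/-- Among three distinct neighbours of a vertex two are adjacent. -/
theorem claw_free {p q₁ q₂ q₃ : Fin 3 × V × V} (h1 : Adj (claw.out E) p q₁)
    (h2 : Adj (claw.out E) p q₂) (h3 : Adj (claw.out E) p q₃) (h12 : q₁ ≠ q₂) (h13 : q₁ ≠ q₃)
    (h23 : q₂ ≠ q₃) :
    Adj (claw.out E) q₁ q₂ ∨ Adj (claw.out E) q₁ q₃ ∨ Adj (claw.out E) q₂ q₃ := by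
  have key : ∀ q, Adj (claw.out E) p q → Ok E q ∧ (own q = own p ∨
      (p.2 = q.2 ∧ ((p.1 = 1 ∧ q.1 = 2) ∨ (p.1 = 2 ∧ q.1 = 1)))) := by
    rintro q (h | h)
    · rw [claw_out_iff'] at h
      rcases h with ⟨_, hq, h | h⟩
      · exact ⟨hq, Or.inl h.1.symm⟩
      · exact ⟨hq, Or.inr ⟨h.2.2, Or.inl ⟨h.1, h.2.1⟩⟩⟩
    · rw [claw_out_iff'] at h
      rcases h with ⟨hq, _, h | h⟩
      · exact ⟨hq, Or.inl h.1⟩
      · exact ⟨hq, Or.inr ⟨h.2.2.symm, Or.inr ⟨h.2.1, h.1⟩⟩⟩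
  have adj : ∀ q q', Ok E q → Ok E q' → q ≠ q' → own q = own p → own q' = own p →
      Adj (claw.out E) q q' := by
    intro q q' hq hq' hne e e'
    rcases lt_trichotomy (pos q) (pos q') with h | h | h
    · exact Or.inl ((claw_out_iff' _ _).2 ⟨hq, hq', Or.inl ⟨e.trans e'.symm, h⟩⟩)
    · exact absurd (pos_inj hq hq' (e.trans e'.symm) h) hne
    · exact Or.inr ((claw_out_iff' _ _).2 ⟨hq', hq, Or.inl ⟨e'.trans e.symm, h⟩⟩)
  have uniq : ∀ q q' : Fin 3 × V × V,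
      (p.2 = q.2 ∧ ((p.1 = 1 ∧ q.1 = 2) ∨ (p.1 = 2 ∧ q.1 = 1))) →
      (p.2 = q'.2 ∧ ((p.1 = 1 ∧ q'.1 = 2) ∨ (p.1 = 2 ∧ q'.1 = 1))) → q = q' := by
    rintro q q' ⟨e1, e2⟩ ⟨e3, e4⟩
    refine Prod.ext ?_ (e1.symm.trans e3)
    rcases e2 with ⟨e2, e5⟩ | ⟨e2, e5⟩ <;> rcases e4 with ⟨e4, e6⟩ | ⟨e4, e6⟩
    · rw [e5, e6]
    · exact absurd (e2.symm.trans e4) (by decide)
    · exact absurd (e2.symm.trans e4) (by decide)
    · rw [e5, e6]
  obtain ⟨o1, k1⟩ := key _ h1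
  obtain ⟨o2, k2⟩ := key _ h2
  obtain ⟨o3, k3⟩ := key _ h3
  rcases k1 with k1 | k1
  · rcases k2 with k2 | k2
    · exact Or.inl (adj _ _ o1 o2 h12 k1 k2)
    · rcases k3 with k3 | k3
      · exact Or.inr (Or.inl (adj _ _ o1 o3 h13 k1 k3))
      · exact absurd (uniq _ _ k2 k3) h23
  · rcases k2 with k2 | k2
    · rcases k3 with k3 | k3
      · exact Or.inr (Or.inr (adj _ _ o2 o3 h23 k2 k3))
      · exact absurd (uniq _ _ k1 k3) h13
    · exact absurd (uniq _ _ k1 k2) h12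

theorem claw_acyclic (hE : ∀ x y, E x y → x < y) : Acyclic (claw.out E) := by
  refine acyclic_of_rank (R := V ×ₗ (ℕ ×ₗ V)) (fun p => toLex (own p, pos p)) ?_
  intro p q h
  rw [claw_out_iff'] at h
  obtain ⟨hp, hq, h | ⟨h1, h2, h3⟩⟩ := h
  · exact (Prod.Lex.lt_iff (x := toLex (own p, pos p)) (y := toLex (own q, pos q))).2
      (Or.inr h)
  · refine (Prod.Lex.lt_iff (x := toLex (own p, pos p)) (y := toLex (own q, pos q))).2
      (Or.inl ?_)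
    have h4 : own p = p.2.1 := by simp [own, h1]
    have h5 : own q = q.2.2 := by simp [own, h2]
    show own p < own q
    rw [h4, h5, h3]
    rcases hq with hq | hq
    · rw [h2] at hq
      exact absurd hq.1 (by decide)
    · exact hE _ _ hq.2

theorem claw_reach (s t : V) :
    Relation.ReflTransGen (claw.out E) (0, s, s) (0, t, t) ↔ Relation.ReflTransGen E s t := by
  constructor
  · intro h
    have key : ∀ p q : Fin 3 × V × V, Relation.ReflTransGen (claw.out E) p q →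
        Relation.ReflTransGen E (own p) (own q) := by
      intro p q h
      induction h with
      | refl => exact .refl
      | @tail b c _ h1 ih =>
        rw [claw_out_iff'] at h1
        obtain ⟨hb, hc, h1 | ⟨h2, h3, h4⟩⟩ := h1
        · rw [← h1.1]
          exact ih
        · refine ih.tail ?_
          have h5 : own b = b.2.1 := by simp [own, h2]
          have h6 : own c = c.2.2 := by simp [own, h3]
          rw [h5, h6, h4]
          rcases hc with hc | hc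
          · rw [h3] at hc
            exact absurd hc.1 (by decide)
          · exact hc.2
    have := key _ _ h
    simpa [own] using this
  · intro h
    induction h with
    | refl => exact .refl
    | @tail b c _ h1 ih =>
      refine ((ih.tail (c := (1, b, c)) ?_).tail (c := (2, b, c)) ?_).tail ?_
      · rw [claw_out_iff]
        exact Or.inr (Or.inl ⟨rfl, rfl, rfl, rfl, h1⟩)
      · rw [claw_out_iff]
        exact Or.inr (Or.inr (Or.inr (Or.inl ⟨rfl, rfl, rfl, h1⟩)))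
      · rw [claw_out_iff]
        exact Or.inl ⟨rfl, rfl, h1, rfl, rfl⟩

end Claw

/-- `H` has a vertex with three pairwise non-adjacent neighbours. -/
def HasClaw {h : ℕ} (H : Fin h → Fin h → Prop) : Prop :=
  ∃ a b₁ b₂ b₃, a ≠ b₁ ∧ a ≠ b₂ ∧ a ≠ b₃ ∧ b₁ ≠ b₂ ∧ b₁ ≠ b₃ ∧ b₂ ≠ b₃ ∧
    Adj H a b₁ ∧ Adj H a b₂ ∧ Adj H a b₃ ∧ ¬ Adj H b₁ b₂ ∧ ¬ Adj H b₁ b₃ ∧ ¬ Adj H b₂ b₃

theorem claw_upInto {h : ℕ} {H : Fin h → Fin h → Prop} (hH : HasClaw H) :
    UpInto claw fun _ F => Acyclic F ∧ ¬ HasInd H F := by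
  intro V _ _ E hE
  have h1 : ∀ (s : V) (x : V × V), claw.IsSrc E s x ↔ (s = x.1 ∧ x.1 = x.2) :=
    fun s x => Iff.rfl
  have h2 : ∀ (s : V) (x : V × V), claw.IsTgt E s x ↔ (s = x.1 ∧ x.1 = x.2) :=
    fun s x => Iff.rfl
  refine ⟨⟨claw_acyclic hE, ?_⟩, fun s => ⟨(s, s), (h1 _ _).2 ⟨rfl, rfl⟩, ?_⟩,
    fun s => ⟨(s, s), (h2 _ _).2 ⟨rfl, rfl⟩, ?_⟩, ?_⟩
  · rintro ⟨f, hf, hf2⟩
    obtain ⟨a, b₁, b₂, b₃, a1, a2, a3, b12, b13, b23, k1, k2, k3, n12, n13, n23⟩ := hH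
    have hadj : ∀ i j, i ≠ j → (Adj H i j ↔ Adj (claw.out E) (f i) (f j)) := fun i j hij =>
      or_congr (hf2 i j hij) (hf2 j i hij.symm)
    rcases claw_free ((hadj _ _ a1).1 k1) ((hadj _ _ a2).1 k2) ((hadj _ _ a3).1 k3)
      (hf.ne b12) (hf.ne b13) (hf.ne b23) with h | h | h
    · exact n12 ((hadj _ _ b12).2 h)
    · exact n13 ((hadj _ _ b13).2 h)
    · exact n23 ((hadj _ _ b23).2 h)
  · rintro ⟨a, b⟩ hab
    obtain ⟨h3, h4⟩ := (h1 _ _).1 hab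
    simp only at h3 h4
    rw [← h4, ← h3]
  · rintro ⟨a, b⟩ hab
    obtain ⟨h3, h4⟩ := (h2 _ _).1 hab
    simp only at h3 h4
    rw [← h4, ← h3]
  · rintro s t ⟨a, b⟩ ⟨c, d⟩ h3 h4
    obtain ⟨h5, h6⟩ := (h1 _ _).1 h3
    obtain ⟨h7, h8⟩ := (h2 _ _).1 h4
    simp only at h5 h6 h7 h8
    subst h5 h6 h7 h8
    exact claw_reach s t

end Pool.Agent.Lib.Pe46137h9
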